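import Pool.Agent.Helper12.MA.StC
import Pool.Agent.Helper12.MA.Lib

/-!
# Project MA (MP_d63854_co), module CUM: opposite cofacial vertices form a cut
-/

set_option autoImplicit false

namespace Pool.Agent.Helper39.MA

open Pool.Agent.Helper12.MA
open Pool.Agent.Helper51.AJ (IsMinor Planar Apex ExMinor Con Tch con_union con_singleton)
open Pool.Agent.Helper12.NK (rst Kc add cnt Pcy IsFace Cof plus)

/-- a subset of a connected set which is closed under adjacency contains everything -/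
theorem all_of_closed {V : Type} {G : SimpleGraph V} {W S : Set V} (hW : Con G W) {x₀ : V} (h0 : x₀ ∈ W)
    (h0S : x₀ ∈ S) (hcl : ∀ x ∈ S, x ∈ W → ∀ y ∈ W, G.Adj x y → y ∈ S) : ∀ w ∈ W, w ∈ S := by
  intro w hw
  have key : ∀ (a b : W) (_ : (G.induce W).Walk a b), a.1 ∈ S → b.1 ∈ S := by
    intro a b p
    induction p with
    | nil => exact id
    | cons h p ih => intro ha; exact ih (hcl _ ha (Subtype.coe_prop _) _ (Subtype.coe_prop _) h)
  obtain ⟨pw⟩ := hW.preconnected ⟨x₀, h0⟩ ⟨w, hw⟩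
  exact key _ _ pw h0S

theorem con_union_inter {V : Type} {B : SimpleGraph V} {S T : Set V} (hS : Con B S) (hT : Con B T) {x : V}
    (hx : x ∈ S) (hy : x ∈ T) : Con B (S ∪ T) :=
  SimpleGraph.induce_union_connected hS.preconnected hT.preconnected ⟨x, hx, hy⟩

theorem face_sub {V : Type} {M : SimpleGraph V} {U F : Set V} (h : IsFace M U F) : F ⊆ U := by
  obtain ⟨m, c, hc, rfl⟩ := h
  exact hc.2.2.1

theorem hCUM (pcl : StPCL) (rim : StRIM) : StCUM := by
  intro V _ G z v p q r r' f1 f2 f3 f4 C a ha c hc haz hap har hcz hcq hcr hcof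
  obtain ⟨F, hF, haF, hcF⟩ := hcof
  have hnb := C.ds.nb
  have hne := C.ds.ne
  have hzp : G.Adj z p := (hnb p).2 (by simp)
  have hzq : G.Adj z q := (hnb q).2 (by simp)
  have hzr : G.Adj z r := (hnb r).2 (by simp)
  have hzs : G.Adj z r' := (hnb r').2 (by simp)
  have hzv : G.Adj z v := (hnb v).2 (by simp)
  have zp := G.ne_of_adj hzp
  have zq := G.ne_of_adj hzq
  have zr := G.ne_of_adj hzr
  have zs := G.ne_of_adj hzs
  have zv := G.ne_of_adj hzv
  have h13 : ∀ t, t ∈ f1 → t ∈ f3 → t = z := by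
    intro t h1 h3
    have : t ∈ f1 ∩ f3 := ⟨h1, h3⟩
    rw [C.x13] at this
    exact this
  have hav : a ≠ v := fun h => face_sub C.i1 ha h
  have hcv : c ≠ v := fun h => face_sub C.i3 hc h
  have hac : a ≠ c := fun h => haz (h13 a ha (h ▸ hc))
  have hcp : c ≠ p := fun h => hcz (h13 c (h ▸ C.p1) hc)
  have hcr1 : c ≠ r := fun h => hcz (h13 c (h ▸ C.r1) hc)
  have haq : a ≠ q := fun h => haz (h13 a ha (h ▸ C.q3))
  have has : a ≠ r' := fun h => haz (h13 a ha (h ▸ C.s3))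
  have hzF : z ∉ F := by
    intro hz
    rcases C.all F hF hz with h | h | h | h
    · exact hcz (h13 c (h ▸ hcF) hc)
    · have : a ∈ f1 ∩ f2 := ⟨ha, h ▸ haF⟩
      rw [C.x12] at this
      rcases this with h' | h'
      · exact haz h'
      · exact har h'
    · exact haz (h13 a ha (h ▸ haF))
    · have : a ∈ f4 ∩ f1 := ⟨h ▸ haF, ha⟩
      rw [C.x41] at this
      rcases this with h' | h'
      · exact haz h'
      · exact hap h'
  -- the set `K`
  obtain ⟨pc1, -, pc3, pc4, -, -⟩ := pcl V (dl G p q) {v}ᶜ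
  have hKa : PC (dl G p q) {v}ᶜ {a} {f1, F} := by
    refine pc4 a _ hav ?_
    intro D hD
    rcases hD with h | h
    · exact h ▸ ha
    · exact h ▸ haF
  have hKc : PC (dl G p q) {v}ᶜ {c} {f3, F} := by
    refine pc4 c _ hcv ?_
    intro D hD
    rcases hD with h | h
    · exact h ▸ hc
    · exact h ▸ hcF
  have hK : PC (dl G p q) {v}ᶜ ({a} ∪ {c}) ({f1, F} ∪ {f3, F}) := by
    refine pc3 _ _ _ _ hKa hKc (Or.inr (Or.inl ⟨a, rfl, F, Or.inr rfl, hF, haF⟩))
  -- no connected set joins the two sides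
  have hno : ∀ A : Set V, A ⊆ ({v, z, a, c} : Set V)ᶜ → Con (dl G p q) A → (p ∈ A ∨ r' ∈ A) → (r ∈ A ∨ q ∈ A) → False := by
    intro A hA hcon h1 h2
    have hAv : A ⊆ ({v}ᶜ : Set V) := fun t ht h => hA ht (by simp at h; simp [h])
    have hL := pc1 A hAv hcon
    have hzA : z ∉ A := fun h => hA h (by simp)
    have hzK : z ∉ ({a} ∪ {c} : Set V) := by
      rintro (h | h)
      · exact haz h.symm
      · exact hcz h.symm
    have hdis : Disjoint A ({a} ∪ {c} : Set V) := by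
      rw [Set.disjoint_left]
      rintro t ht (h | h)
      · exact hA ht (by simp at h; simp [h])
      · exact hA ht (by simp at h; simp [h])
    have on1 : on p q r r' f1 f2 f3 f4 ({a} ∪ {c}) ({f1, F} ∪ {f3, F}) 1 :=
      Or.inr (Or.inl ⟨rfl, Or.inl (Or.inl rfl)⟩)
    have on5 : on p q r r' f1 f2 f3 f4 ({a} ∪ {c}) ({f1, F} ∪ {f3, F}) 5 :=
      Or.inr (Or.inr (Or.inr (Or.inr (Or.inr (Or.inl ⟨rfl, Or.inr (Or.inl rfl)⟩)))))
    have onL0 : p ∈ A → on p q r r' f1 f2 f3 f4 A ∅ 0 := fun h => Or.inl ⟨rfl, h⟩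
    have onL2 : r ∈ A → on p q r r' f1 f2 f3 f4 A ∅ 2 := fun h => Or.inr (Or.inr (Or.inl ⟨rfl, h⟩))
    have onL4 : q ∈ A → on p q r r' f1 f2 f3 f4 A ∅ 4 :=
      fun h => Or.inr (Or.inr (Or.inr (Or.inr (Or.inl ⟨rfl, h⟩))))
    have onL6 : r' ∈ A → on p q r r' f1 f2 f3 f4 A ∅ 6 :=
      fun h => Or.inr (Or.inr (Or.inr (Or.inr (Or.inr (Or.inr (Or.inl ⟨rfl, h⟩))))))
    have R := rim V G z v p q r r' f1 f2 f3 f4 C
    rcases h1 with h1 | h1 <;> rcases h2 with h2 | h2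
    · exact R A _ ∅ _ hL hK hdis (Set.empty_disjoint _) hzA hzK 0 1 2 5 (by decide) (by decide) (by decide)
        (onL0 h1) on1 (onL2 h2) on5
    · exact R A _ ∅ _ hL hK hdis (Set.empty_disjoint _) hzA hzK 0 1 4 5 (by decide) (by decide) (by decide)
        (onL0 h1) on1 (onL4 h2) on5
    · exact R _ A _ ∅ hK hL hdis.symm (Set.disjoint_empty _) hzK hzA 1 2 5 6 (by decide) (by decide) (by decide)
        on1 (onL2 h2) on5 (onL6 h1)
    · exact R _ A _ ∅ hK hL hdis.symm (Set.disjoint_empty _) hzK hzA 1 4 5 6 (by decide) (by decide) (by decide)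
        on1 (onL4 h2) on5 (onL6 h1)
  -- the 4-set
  have hcard : ({v, z, a, c} : Set V).ncard = 4 := by
    rw [Set.ncard_insert_of_notMem (by simp [zv.symm, hav.symm, hcv.symm]),
      Set.ncard_insert_of_notMem (by simp [haz.symm, hcz.symm]), Set.ncard_pair hac]
  have hW : Con G ({v, z, a, c} : Set V)ᶜ := C.bh.kc _ hcard.le
  have hpW : p ∈ ({v, z, a, c} : Set V)ᶜ := by simp [hne.1.symm, zp.symm, hap.symm, hcp.symm]
  have hqW : q ∈ ({v, z, a, c} : Set V)ᶜ := by simp [hne.2.1.symm, zq.symm, haq.symm, hcq.symm]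
  have hrW : r ∈ ({v, z, a, c} : Set V)ᶜ := by simp [hne.2.2.1.symm, zr.symm, har.symm, hcr1.symm]
  have hsW : r' ∈ ({v, z, a, c} : Set V)ᶜ := by simp [hne.2.2.2.1.symm, zs.symm, has.symm, hcr.symm]
  generalize hWd : ({v, z, a, c} : Set V)ᶜ = W at hno hW hpW hqW hrW hsW
  let X : Set V := {x | ∃ A : Set V, A ⊆ W ∧ Con (dl G p q) A ∧ p ∈ A ∧ x ∈ A}
  let Y : Set V := {x | ∃ A : Set V, A ⊆ W ∧ Con (dl G p q) A ∧ q ∈ A ∧ x ∈ A}
  have hpX : p ∈ X := ⟨{p}, by simpa using hpW, con_singleton _ _, rfl, rfl⟩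
  have hqY : q ∈ Y := ⟨{q}, by simpa using hqW, con_singleton _ _, rfl, rfl⟩
  have hXY : ∀ x, x ∈ X → x ∈ Y → False := by
    rintro x ⟨A, hA, hAc, hpA, hxA⟩ ⟨B, hB, hBc, hqB, hxB⟩
    exact hno (A ∪ B) (Set.union_subset hA hB) (con_union_inter hAc hBc hxA hxB) (Or.inl (Or.inl hpA))
      (Or.inr (Or.inr hqB))
  have hext : ∀ (s : V) (x y : V), (∃ A : Set V, A ⊆ W ∧ Con (dl G p q) A ∧ s ∈ A ∧ x ∈ A) → y ∈ W →
      (dl G p q).Adj x y → (∃ A : Set V, A ⊆ W ∧ Con (dl G p q) A ∧ s ∈ A ∧ y ∈ A) := by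
    rintro s x y ⟨A, hA, hAc, hsA, hxA⟩ hy hxy
    exact ⟨A ∪ {y}, Set.union_subset hA (by simpa using hy), con_union hAc (con_singleton _ _) ⟨x, hxA, y, rfl, hxy⟩,
      Or.inl hsA, Or.inr rfl⟩
  have hcov : ∀ w ∈ W, w ∈ X ∪ Y := by
    refine all_of_closed hW hpW (Or.inl hpX) ?_
    intro x hx _ y hy hxy
    by_cases h1 : x = p ∧ y = q
    · exact Or.inr (h1.2 ▸ hqY)
    by_cases h2 : x = q ∧ y = p
    · exact Or.inl (h2.2 ▸ hpX)
    have hP : (dl G p q).Adj x y := ⟨hxy, h1, h2⟩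
    rcases hx with hx | hx
    · exact Or.inl (hext p x y hx hy hP)
    · exact Or.inr (hext q x y hx hy hP)
  refine ⟨X, Y, ⟨⟨hcard, ?_, ?_, hpX, hqY, C.ds.pq, ?_⟩, ha, hc, ?_, ?_⟩⟩
  · rw [hWd]
    apply Set.Subset.antisymm
    · rintro x (⟨A, hA, -, -, hx⟩ | ⟨A, hA, -, -, hx⟩)
      · exact hA hx
      · exact hA hx
    · exact hcov
  · rw [Set.disjoint_left]
    exact hXY
  · intro x hx y hy hxy
    by_cases h1 : x = p ∧ y = q
    · exact h1
    exfalso
    by_cases h2 : x = q ∧ y = p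
    · exact hXY q (h2.1 ▸ hx) hqY
    have hyW : y ∈ W := by
      obtain ⟨A, hA, -, -, hy'⟩ := hy
      exact hA hy'
    exact hXY y (hext p x y hx hyW ⟨hxy, h1, h2⟩) hy
  · rcases hcov r' hsW with h | h
    · exact h
    · exfalso
      obtain ⟨A, hA, hAc, hqA, hsA⟩ := h
      exact hno A hA hAc (Or.inr hsA) (Or.inr hqA)
  · rcases hcov r hrW with h | h
    · exfalso
      obtain ⟨A, hA, hAc, hpA, hrA⟩ := h
      exact hno A hA hAc (Or.inl hpA) (Or.inl hrA)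
    · exact h

end Pool.Agent.Helper39.MA

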